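import Pool.Agent.N943.NT.Basic

set_option autoImplicit false

namespace Pool.Agent.N495.NT

open Finset N943.NT

theorem exists_code {V : Type} [DecidableEq V] (D : ℕ) (A B : Finset V) (hA : A.card ≤ D) :
    Nonempty ((A ≃ B) ↪ Fin D.factorial) := by
  by_cases h : Nonempty (A ≃ B)
  · obtain ⟨e⟩ := h
    apply Function.Embedding.nonempty_of_card_le
    rw [Fintype.card_equiv e, Fintype.card_coe, Fintype.card_fin]
    exact Nat.factorial_le hA
  · rw [not_nonempty_iff] at h
    exact ⟨Function.Embedding.ofIsEmpty⟩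

/-- a code of bijections between finite sets -/
noncomputable def code {V : Type} [DecidableEq V] (D : ℕ) (A B : Finset V) (hA : A.card ≤ D) :
    (A ≃ B) ↪ Fin D.factorial := Classical.choice (exists_code D A B hA)

theorem code_inj {V : Type} [DecidableEq V] (D : ℕ) (A B B' : Finset V) (hA : A.card ≤ D)
    (hB : B = B') (σ : A ≃ B) (σ' : A ≃ B') (h : code D A B hA σ = code D A B' hA σ')
    (x : A) : (σ x : V) = (σ' x : V) := by
  subst hB
  rw [(code D A B hA).injective h]

theorem decode : Decode := by
  intro V _ _ r D β F hRT hD hβ hCF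
  classical
  refine reps F Conj (fun a b => Conj.symm) (fun a b c => Conj.trans) Conj.refl _ ?_
  intro q hq E hE hconj
  choose ψ hψ using hconj
  have hmem : ∀ (b : V → V) (hb : b ∈ E) (z x : V), x ∈ ch q z ↔ ψ b hb x ∈ ch b (ψ b hb z) := by
    intro b hb z x
    rw [mem_ch, mem_ch, ← hψ b hb x]
    constructor
    · rintro ⟨h1, h2⟩
      exact ⟨fun h => h1 ((ψ b hb).injective h), by rw [h2]⟩
    · rintro ⟨h1, h2⟩
      exact ⟨fun h => h1 (by rw [h]), (ψ b hb).injective h2⟩
  let Z : Finset V := univ.filter (fun w => 2 ≤ (ch q w).card)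
  let f : E → (Z → Fin D.factorial) := fun b z =>
    code D (ch q z) (ch b.1 (ψ b.1 b.2 z)) (hD q hq z)
      ((ψ b.1 b.2).subtypeEquiv (hmem b.1 b.2 z))
  have hf : Function.Injective f := by
    rintro ⟨b, hb⟩ ⟨b', hb'⟩ hbb
    have hRq := hRT q hq
    have hRb := hRT b (hE hb)
    have hRb' := hRT b' (hE hb')
    have hψψ : ∀ n v, dep r q v = n → ψ b hb v = ψ b' hb' v := by
      intro n
      induction n with
      | zero =>
        intro v hv
        rw [hRq.dep_eq_zero] at hv
        rw [hv, conj_root hRq hRb (hψ b hb), conj_root hRq hRb' (hψ b' hb')]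
      | succ n ih =>
        intro v hv
        have hvr : v ≠ r := by
          rintro rfl
          rw [dep_root] at hv
          omega
        have h1 := hRq.dep_succ hvr
        have hz : ψ b hb (q v) = ψ b' hb' (q v) := ih (q v) (by omega)
        have hc : ch b (ψ b hb (q v)) = ch b' (ψ b' hb' (q v)) := by
          rw [← hz]
          refine hCF b (hE hb) b' (hE hb') _ ?_
          rw [conj_ch_card (hψ b hb)]
          rw [hz, conj_ch_card (hψ b' hb')]
        have hvc : v ∈ ch q (q v) := hRq.mem_ch_self hvr
        by_cases h2 : 2 ≤ (ch q (q v)).card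
        · have h3 := congrFun hbb ⟨q v, by
            show q v ∈ univ.filter (fun w => 2 ≤ (ch q w).card)
            rw [mem_filter]
            exact ⟨mem_univ _, h2⟩⟩
          exact code_inj D (ch q (q v)) _ _ (hD q hq (q v)) hc _ _ h3 ⟨v, hvc⟩
        · have h4 : (ch b (ψ b hb (q v))).card ≤ 1 := by
            rw [conj_ch_card (hψ b hb)]
            omega
          rw [card_le_one] at h4
          refine h4 _ ((hmem b hb (q v) v).mp hvc) _ ?_
          rw [hc]
          exact (hmem b' hb' (q v) v).mp hvc
    have hψe : ψ b hb = ψ b' hb' := Equiv.ext (fun v => hψψ _ v rfl)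
    apply Subtype.ext
    show b = b'
    funext w
    obtain ⟨v, rfl⟩ := (ψ b hb).surjective w
    rw [← hψ b hb v]
    rw [hψe]
    rw [← hψ b' hb' v]
  have h1 := Fintype.card_le_of_injective f hf
  rw [Fintype.card_coe, Fintype.card_fun, Fintype.card_fin, Fintype.card_coe] at h1
  exact h1.trans (Nat.pow_le_pow_right (Nat.factorial_pos D) (hβ q hq))

end Pool.Agent.N495.NT
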