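import Pool.Agent.N943.NT.Basic

set_option autoImplicit false

namespace Pool.Agent.N495.NT

open Finset N943.NT

/-- conflict-free -/
def Ind {V : Type} (R : V → V → Prop) (B : Finset V) : Prop :=
  ∀ b ∈ B, ∀ b' ∈ B, R b b' → b = b'

/-- a maximal conflict-free subset -/
theorem exists_indep {V : Type} [DecidableEq V] (B₀ : Finset V) (R : V → V → Prop)
    (hsymm : ∀ a b, R a b → R b a) (hrefl : ∀ b ∈ B₀, R b b) :
    ∃ B ⊆ B₀, (∀ b ∈ B, ∀ b' ∈ B, R b b' → b = b') ∧ ∀ b' ∈ B₀, ∃ b ∈ B, R b b' := by
  classical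
  obtain ⟨B, hB, hmax⟩ := exists_max_image
    (B₀.powerset.filter (fun B => Ind R B)) card
    ⟨∅, by
      rw [mem_filter]
      exact ⟨empty_mem_powerset _, fun b hb => absurd hb (notMem_empty b)⟩⟩
  rw [mem_filter, mem_powerset] at hB
  refine ⟨B, hB.1, hB.2, ?_⟩
  intro b' hb'
  by_contra hno
  push Not at hno
  have hnm : b' ∉ B := fun h => hno b' h (hrefl b' hb')
  have h1 := hmax (insert b' B) (by
    rw [mem_filter, mem_powerset]
    refine ⟨insert_subset hb' hB.1, ?_⟩
    intro x hx y hy hxy
    rw [mem_insert] at hx hy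
    rcases hx with rfl | hx
    · rcases hy with rfl | hy
      · rfl
      · exact absurd (hsymm _ _ hxy) (hno y hy)
    · rcases hy with rfl | hy
      · exact absurd hxy (hno x hx)
      · exact hB.2 x hx y hy hxy)
  rw [card_insert_of_notMem hnm] at h1
  omega

section
variable {V : Type} [Fintype V] [DecidableEq V]

open Classical in
/-- the neighbours of a vertex -/
noncomputable def nbr (G : SimpleGraph V) (v : V) : Finset V := univ.filter (fun w => G.Adj v w)

theorem mem_nbr {G : SimpleGraph V} {v w : V} : w ∈ nbr G v ↔ G.Adj v w := by simp [nbr]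

theorem nbr_card (G : SimpleGraph V) (v : V) : (nbr G v).card = dg G v := by
  unfold dg
  rw [← Set.ncard_coe_finset]
  congr 1
  ext w
  rw [mem_coe, mem_nbr]
  rfl

open Classical in
/-- the ancestors adjacent to a vertex -/
noncomputable def up (G : SimpleGraph V) (p : V → V) (v : V) : Finset V :=
  (nbr G v).filter (fun w => Anc p w v)

theorem mem_up {G : SimpleGraph V} {p : V → V} {v w : V} :
    w ∈ up G p v ↔ G.Adj v w ∧ Anc p w v := by
  simp only [up, mem_filter, mem_nbr]

theorem up_card_le (G : SimpleGraph V) (p : V → V) (v : V) : (up G p v).card ≤ dg G v := by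
  rw [← nbr_card]
  refine card_le_card (fun w hw => ?_)
  rw [mem_up] at hw
  exact mem_nbr.mpr hw.1

theorem sum_up {G : SimpleGraph V} {p : V → V} (hN : Normal G p) :
    ∑ v, dg G v ≤ 2 * ∑ v, (up G p v).card := by
  classical
  have h1 : ∀ v, dg G v ≤ (up G p v).card + (univ.filter (fun u => v ∈ up G p u)).card := by
    intro v
    rw [← nbr_card]
    refine le_trans (card_le_card ?_) (card_union_le _ _)
    intro w hw
    rw [mem_nbr] at hw
    rw [mem_union, mem_filter, mem_up, mem_up]
    rcases hN v w hw with h | h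
    · right
      exact ⟨mem_univ _, hw.symm, h⟩
    · left
      exact ⟨hw, h⟩
  have h2 : ∑ v, (univ.filter (fun u => v ∈ up G p u)).card = ∑ v, (up G p v).card := by
    have e1 : ∀ v, (univ.filter (fun u => v ∈ up G p u)).card =
        ∑ u, if v ∈ up G p u then 1 else 0 := fun v => card_filter _ _
    have e2 : ∀ u, (up G p u).card = ∑ v, if v ∈ up G p u then 1 else 0 := by
      intro u
      rw [← card_filter, filter_mem_eq_inter, univ_inter]
    simp only [e1]
    rw [sum_comm]
    exact sum_congr rfl (fun u _ => (e2 u).symm)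
  calc ∑ v, dg G v ≤ ∑ v, ((up G p v).card + (univ.filter (fun u => v ∈ up G p u)).card) :=
        sum_le_sum (fun v _ => h1 v)
    _ = 2 * ∑ v, (up G p v).card := by
        rw [sum_add_distrib, h2]
        ring

end

theorem exB : ExB := by
  intro V _ _ G r p D hRT hIn hN hdeg
  classical
  set B₀ : Finset V := univ.filter (fun b => 2 ≤ (up G p b).card) with hB₀
  -- counting
  have hcount : Fintype.card V ≤ 2 * D * B₀.card := by
    have h1 : 3 * Fintype.card V ≤ ∑ v, dg G v := by
      have : ∑ _v : V, 3 ≤ ∑ v, dg G v := sum_le_sum (fun v _ => (hdeg v).1)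
      rw [sum_const, card_univ, smul_eq_mul] at this
      omega
    have h2 := sum_up hN
    have h3 : ∀ v, (up G p v).card ≤ 1 + if v ∈ B₀ then D else 0 := by
      intro v
      by_cases hv : v ∈ B₀
      · rw [if_pos hv]
        have h4 := up_card_le G p v
        have := (hdeg v).2
        omega
      · rw [if_neg hv]
        have : ¬ 2 ≤ (up G p v).card := fun h => hv (by rw [hB₀, mem_filter]; exact ⟨mem_univ _, h⟩)
        omega
    have h5 : ∑ v, (up G p v).card ≤ Fintype.card V + D * B₀.card := by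
      refine (sum_le_sum (fun v _ => h3 v)).trans ?_
      rw [sum_add_distrib, sum_const, card_univ, smul_eq_mul, mul_one, sum_ite_mem, univ_inter,
        sum_const, smul_eq_mul, mul_comm D]
    have h6 : 2 * D * B₀.card = 2 * (D * B₀.card) := by ring
    omega
  -- the choice of `y`
  have hy : ∀ b : V, ∃ y : V, b ∈ B₀ → (G.Adj b y ∧ Anc p y b ∧ y ≠ p b) := by
    intro b
    by_cases hb : b ∈ B₀
    · rw [hB₀, mem_filter] at hb
      obtain ⟨y, hy, hne⟩ := exists_mem_ne (by omega : 1 < (up G p b).card) (p b)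
      rw [mem_up] at hy
      exact ⟨y, fun _ => ⟨hy.1, hy.2, hne⟩⟩
    · exact ⟨b, fun h => absurd h hb⟩
  choose y hy using hy
  have hpb : ∀ b ∈ B₀, p b ≠ b := by
    intro b hb h
    have hbr := hRT.eq_root_of_fix h
    obtain ⟨h1, h2, h3⟩ := hy b hb
    rw [hbr] at h2 h1
    have h4 := Anc.root_of hRT h2
    rw [h4] at h1
    exact G.ne_of_adj h1 rfl
  obtain ⟨B, hBs, hB1, hB2⟩ := exists_indep B₀
    (fun b b' => p b = p b' ∨ p b = y b' ∨ y b = p b' ∨ y b = y b')
    (by
      intro a b h
      rcases h with h | h | h | h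
      · exact Or.inl h.symm
      · exact Or.inr (Or.inr (Or.inl h.symm))
      · exact Or.inr (Or.inl h.symm)
      · exact Or.inr (Or.inr (Or.inr h.symm)))
    (fun b _ => Or.inl rfl)
  refine ⟨B, y, ⟨?_, ?_⟩, ?_⟩
  · intro b hb
    have hb' := hBs hb
    obtain ⟨h1, h2, h3⟩ := hy b hb'
    refine ⟨hpb b hb', h1, h3, ?_⟩
    rcases Anc.cases h2 with h | h
    · exact absurd h (G.ne_of_adj h1).symm
    · exact h
  · intro b hb b' hb'
    refine ⟨?_, fun h => hB1 b hb b' hb' (Or.inl h),
      fun h => hB1 b hb b' hb' (Or.inr (Or.inr (Or.inr h)))⟩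
    intro h
    have hbb := hB1 b hb b' hb' (Or.inr (Or.inl h))
    rw [hbb] at h
    exact (hy b' (hBs hb')).2.2 h.symm
  · have hcov : B₀ ⊆ B.biUnion (fun b => nbr G (p b) ∪ nbr G (y b)) := by
      intro b' hb'
      obtain ⟨b, hb, hR⟩ := hB2 b' hb'
      rw [mem_biUnion]
      refine ⟨b, hb, ?_⟩
      have e1 : G.Adj (p b') b' := (hIn b' (hpb b' hb')).symm
      have e2 : G.Adj (y b') b' := (hy b' hb').1.symm
      rw [mem_union, mem_nbr, mem_nbr]
      rcases hR with h | h | h | h
      · left; rw [h]; exact e1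
      · left; rw [h]; exact e2
      · right; rw [h]; exact e1
      · right; rw [h]; exact e2
    have h7 : B₀.card ≤ B.card * (2 * D) := by
      refine (card_le_card hcov).trans (card_biUnion_le_card_mul _ _ _ (fun b _ => ?_))
      have e3 := card_union_le (nbr G (p b)) (nbr G (y b))
      rw [nbr_card, nbr_card] at e3
      have e4 := (hdeg (p b)).2
      have e5 := (hdeg (y b)).2
      omega
    calc Fintype.card V ≤ 2 * D * B₀.card := hcount
      _ ≤ 2 * D * (B.card * (2 * D)) := Nat.mul_le_mul_left _ h7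
      _ = 4 * D ^ 2 * B.card := by ring

end Pool.Agent.N495.NT
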