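import Pool.Agent.N943.NT.Basic

set_option autoImplicit false

namespace Pool.Agent.N495.NT

open Finset N943.NT

section
variable {V : Type} [Fintype V] [DecidableEq V]

/-- the re-parented function -/
def sw (p y : V → V) (A : Finset V) (v : V) : V := if v ∈ A then y v else p v

theorem mem_ch_sw {p y : V → V} {A : Finset V} {v w : V} :
    v ∈ ch (sw p y A) w ↔ v ≠ w ∧ ((v ∈ A ∧ y v = w) ∨ (v ∉ A ∧ p v = w)) := by
  rw [mem_ch]
  unfold sw
  by_cases h : v ∈ A
  · simp [h]
  · simp [h]

/-- if the membership of the relevant vertices agrees, the children agree -/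
theorem ch_sw_eq {p y : V → V} {A A' B : Finset V} (hA : A ⊆ B) (hA' : A' ⊆ B) {w : V}
    (h : ∀ b ∈ B, (p b = w ∨ y b = w) → (b ∈ A ↔ b ∈ A')) :
    ch (sw p y A) w = ch (sw p y A') w := by
  ext v
  rw [mem_ch_sw, mem_ch_sw]
  by_cases hv : v ∈ B
  · by_cases hr : p v = w ∨ y v = w
    · rw [h v hv hr]
    · push Not at hr
      simp [hr.1, hr.2]
  · have h1 : v ∉ A := fun h => hv (hA h)
    have h2 : v ∉ A' := fun h => hv (hA' h)
    simp [h1, h2]

theorem ch_sw_ne {G : SimpleGraph V} {p y : V → V} {A A' B : Finset V} (hA : A ⊆ B)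
    (hA' : A' ⊆ B) (hB : GoodB G p y B) {w b : V} (hb : b ∈ B) (hbw : p b = w ∨ y b = w)
    (h1 : b ∈ A) (h2 : b ∉ A') : (ch (sw p y A) w).card ≠ (ch (sw p y A') w).card := by
  -- uniqueness of the relevant vertex
  have huniq : ∀ v ∈ B, v ≠ b → p v ≠ w ∧ y v ≠ w := by
    intro v hv hvb
    obtain ⟨g1, g2, g3⟩ := hB.2 v hv b hb
    obtain ⟨g4, g5, g6⟩ := hB.2 b hb v hv
    rcases hbw with h | h
    · refine ⟨fun h' => hvb (g2 (h'.trans h.symm)), fun h' => g4 (h.trans h'.symm)⟩
    · refine ⟨fun h' => g1 (h'.trans h.symm), fun h' => hvb (g3 (h'.trans h.symm))⟩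
  have hbB := hB.1 b hb
  have hby : y b ≠ b := (G.ne_of_adj hbB.2.1).symm
  have hother : ∀ v, v ≠ b → (v ∈ ch (sw p y A) w ↔ v ∈ ch (sw p y A') w) := by
    intro v hvb
    rw [mem_ch_sw, mem_ch_sw]
    by_cases hv : v ∈ B
    · obtain ⟨g1, g2⟩ := huniq v hv hvb
      simp [g1, g2]
    · have e1 : v ∉ A := fun h => hv (hA h)
      have e2 : v ∉ A' := fun h => hv (hA' h)
      simp [e1, e2]
  rcases hbw with h | h
  · -- `p b = w`
    have hyw : y b ≠ w := fun h' => hbB.2.2.1 (h'.trans h.symm)
    have hbw' : b ≠ w := fun h' => hbB.1 (h.trans h'.symm)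
    have e1 : b ∉ ch (sw p y A) w := by
      rw [mem_ch_sw]
      simp [h1, hyw]
    have e2 : b ∈ ch (sw p y A') w := by
      rw [mem_ch_sw]
      exact ⟨hbw', Or.inr ⟨h2, h⟩⟩
    have e3 : ch (sw p y A') w = insert b (ch (sw p y A) w) := by
      ext v
      rw [mem_insert]
      by_cases hv : v = b
      · subst hv
        simp [e2]
      · simp [hv, hother v hv]
    rw [e3, card_insert_of_notMem e1]
    omega
  · have hpw : p b ≠ w := fun h' => hbB.2.2.1 (h.trans h'.symm)
    have hbw' : b ≠ w := fun h' => hby (h.trans h'.symm)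
    have e1 : b ∈ ch (sw p y A) w := by
      rw [mem_ch_sw]
      exact ⟨hbw', Or.inl ⟨h1, h⟩⟩
    have e2 : b ∉ ch (sw p y A') w := by
      rw [mem_ch_sw]
      simp [h2, hpw]
    have e3 : ch (sw p y A) w = insert b (ch (sw p y A') w) := by
      ext v
      rw [mem_insert]
      by_cases hv : v = b
      · subst hv
        simp [e1]
      · simp [hv, hother v hv]
    rw [e3, card_insert_of_notMem e2]
    omega

/-- few branch vertices if there are few childless vertices -/
theorem branch_le {r : V} {q : V → V} (h : RT r q) :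
    (univ.filter (fun w => 2 ≤ (ch q w).card)).card ≤ (nochild q).card := by
  have h1 : ∀ w, 1 + (if 2 ≤ (ch q w).card then 1 else 0) ≤
      (ch q w).card + if ch q w = ∅ then 1 else 0 := by
    intro w
    by_cases h2 : ch q w = ∅
    · rw [h2]
      simp
    · have h3 : 0 < (ch q w).card := card_pos.mpr (nonempty_iff_ne_empty.mpr h2)
      rw [if_neg h2]
      split_ifs <;> omega
  have h2 : ∑ w, (1 + (if 2 ≤ (ch q w).card then 1 else 0)) ≤
      ∑ w, ((ch q w).card + if ch q w = ∅ then 1 else 0) := sum_le_sum (fun w _ => h1 w)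
  rw [sum_add_distrib, sum_add_distrib, ← card_filter, ← card_filter, sum_const, card_univ,
    smul_eq_mul, mul_one, ← h.sum_ch] at h2
  unfold nochild
  omega

end

theorem swapFam (h : Decode) : SwapFam := by
  intro V _ _ G r p y D k B hRT hIn hdeg hB
  classical
  have hrB : r ∉ B := fun hr => (hB.1 r hr).1 hRT.1
  have hRTsw : ∀ A ⊆ B, RT r (sw p y A) := by
    intro A hA
    refine RT_of_lt (dep r p) ?_ ?_
    · unfold sw
      rw [if_neg (fun h' => hrB (hA h'))]
      exact hRT.1
    · intro v hv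
      have h1 := hRT.dep_succ hv
      unfold sw
      split_ifs with hvA
      · have h2 := Anc.dep_le hRT (hB.1 v (hA hvA)).2.2.2
        omega
      · omega
  have hInsw : ∀ A ⊆ B, InG G (sw p y A) := by
    intro A hA v hv
    unfold sw at hv ⊢
    split_ifs with hvA
    · exact (hB.1 v (hA hvA)).2.1
    · rw [if_neg hvA] at hv
      exact hIn v hv
  have hinj : ∀ A ⊆ B, ∀ A' ⊆ B, sw p y A = sw p y A' → A ⊆ A' := by
    intro A hA A' hA' he v hv
    by_contra hv'
    have h1 := congrFun he v
    unfold sw at h1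
    rw [if_pos hv, if_neg hv'] at h1
    exact (hB.1 v (hA hv)).2.2.1 h1
  have hcard : ((powersetCard k B).image (sw p y)).card = B.card.choose k := by
    rw [card_image_of_injOn, card_powersetCard]
    intro A hA A' hA' he
    rw [mem_coe, mem_powersetCard] at hA hA'
    exact subset_antisymm (hinj A hA.1 A' hA'.1 he) (hinj A' hA'.1 A hA.1 he.symm)
  obtain ⟨F, hF, hconj, hle⟩ := h V r D ((nochild p).card + k) ((powersetCard k B).image (sw p y))
    (by
      intro q hq
      obtain ⟨A, hA, rfl⟩ := mem_image.mp hq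
      exact hRTsw A (mem_powersetCard.mp hA).1)
    (by
      intro q hq w
      obtain ⟨A, hA, rfl⟩ := mem_image.mp hq
      exact (ch_card_le (hInsw A (mem_powersetCard.mp hA).1) w).trans (hdeg w))
    (by
      intro q hq
      obtain ⟨A, hA, rfl⟩ := mem_image.mp hq
      rw [mem_powersetCard] at hA
      have h1 : univ.filter (fun w => 2 ≤ (ch (sw p y A) w).card) ⊆
          univ.filter (fun w => 2 ≤ (ch p w).card) ∪ A.image y := by
        intro w hw
        rw [mem_filter] at hw
        rw [mem_union, mem_filter]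
        by_cases hwA : w ∈ A.image y
        · exact Or.inr hwA
        · left
          refine ⟨mem_univ _, hw.2.trans (card_le_card ?_)⟩
          intro v hv
          rw [mem_ch_sw] at hv
          rw [mem_ch]
          rcases hv.2 with h2 | h2
          · exact absurd (mem_image.mpr ⟨v, h2.1, h2.2⟩) hwA
          · exact ⟨hv.1, h2.2⟩
      have h2 := (card_le_card h1).trans (card_union_le _ _)
      have h3 := card_image_le (s := A) (f := y)
      have h4 := branch_le hRT
      omega)
    (by
      intro q hq q' hq' w hcw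
      obtain ⟨A, hA, rfl⟩ := mem_image.mp hq
      obtain ⟨A', hA', rfl⟩ := mem_image.mp hq'
      have hAB := (mem_powersetCard.mp hA).1
      have hAB' := (mem_powersetCard.mp hA').1
      apply ch_sw_eq hAB hAB'
      intro b hb hbw
      constructor
      · intro h1
        by_contra h2
        exact ch_sw_ne hAB hAB' hB hb hbw h1 h2 hcw
      · intro h1
        by_contra h2
        exact ch_sw_ne hAB' hAB hB hb hbw h1 h2 hcw.symm)
  refine ⟨F, ?_, hconj, ?_⟩
  · intro q hq
    obtain ⟨A, hA, rfl⟩ := mem_image.mp (hF hq)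
    have hAB := (mem_powersetCard.mp hA).1
    exact ⟨hRTsw A hAB, hInsw A hAB⟩
  · rw [← hcard]
    exact hle

end Pool.Agent.N495.NT
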